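import Pool.Agent.H972ST.Stmts

set_option autoImplicit false

/-! # TASK FIB: the fibres over `(n₃,n₄)` -/

namespace Pool.Agent.H023R3.ST

open Pool.Agent.H972ST

open Classical in
lemma mem_Gset (k : ℕ) (z : T6) : z ∈ Gset k ↔ prs k z ∧ par z ∧ tri k z := by
  unfold Gset
  rw [Finset.mem_filter]
  refine ⟨And.right, fun h => ⟨?_, h⟩⟩
  have hb : ∀ p q : ℤ, |p| + |q| ≤ k → (-(k : ℤ) ≤ p ∧ p ≤ k) ∧ (-(k : ℤ) ≤ q ∧ q ≤ k) := by
    intro p q h
    have h1 := abs_nonneg p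
    have h2 := abs_nonneg q
    exact ⟨abs_le.1 (by linarith), abs_le.1 (by linarith)⟩
  obtain ⟨⟨h1, h2, h3⟩, -⟩ := h
  simp only [Box, Finset.mem_product, Finset.mem_Icc]
  exact ⟨hb _ _ h1, hb _ _ h2, hb _ _ h3⟩

/-- the coordinates of a point -/
def crd (x : Fin 8 → ℤ) : Σ _ : ℤ, Σ _ : ℤ, T6 :=
  ⟨x 2, x 3, ((x 0, x 1), (y1 x, y4 x), (y2 x, y3 x))⟩

/-- the point with given coordinates -/
def pnt (a b : ℤ) (z : T6) : Fin 8 → ℤ :=
  ![z.1.1, z.1.2, a, b, z.2.1.1 - z.1.1 - z.1.2, (z.2.2.1 - z.2.1.1 + z.1.1) / 2,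
    (z.2.2.2 - z.2.1.1 + z.1.2) / 2, (z.2.1.2 - z.2.1.1 + z.1.1 + z.1.2) / 2]

/-- the target -/
noncomputable def tgt (m : ℕ) : Finset (Σ _ : ℤ, Σ _ : ℤ, T6) :=
  (Finset.Icc (-(m : ℤ)) m).sigma fun a =>
    (Finset.Icc (-((m : ℤ) - |a|)) ((m : ℤ) - |a|)).sigma fun b =>
      Gset ((m : ℤ) - |a| - |b|).toNat

lemma card_tgt (m : ℕ) : (tgt m).card = ∑ a ∈ Finset.Icc (-(m : ℤ)) m,
    ∑ b ∈ Finset.Icc (-((m : ℤ) - |a|)) ((m : ℤ) - |a|),
    (Gset ((m : ℤ) - |a| - |b|).toNat).card := by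
  unfold tgt
  simp only [Finset.card_sigma]

lemma mem_tgt (m : ℕ) (a b : ℤ) (z : T6) : (⟨a, b, z⟩ : Σ _ : ℤ, Σ _ : ℤ, T6) ∈ tgt m ↔
    |a| + |b| ≤ m ∧ prs ((m : ℤ) - |a| - |b|).toNat z ∧ par z ∧
      tri ((m : ℤ) - |a| - |b|).toNat z := by
  unfold tgt
  simp only [Finset.mem_sigma, mem_Gset, Finset.mem_Icc, ← abs_le]
  have h1 := abs_nonneg a
  have h2 := abs_nonneg b
  constructor
  · rintro ⟨h3, h4, h5⟩
    exact ⟨by linarith, h5⟩
  · rintro ⟨h3, h5⟩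
    exact ⟨by linarith, by linarith, h5⟩

theorem tFib : TFib := by
  intro m
  rw [← card_tgt, ← Set.ncard_coe_finset]
  apply Set.ncard_congr (fun x _ => crd x)
  · intro x hx
    obtain ⟨h1, h2, h3, h4, h5, h6, h7⟩ := hx
    have a0 := abs_nonneg (x 0)
    have a1 := abs_nonneg (x 1)
    have a2 := abs_nonneg (x 2)
    have a3 := abs_nonneg (x 3)
    rw [Finset.mem_coe]
    unfold crd
    rw [mem_tgt]
    have hk : ((((m : ℤ) - |x 2| - |x 3|).toNat : ℕ) : ℤ) = (m : ℤ) - |x 2| - |x 3| :=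
      Int.toNat_of_nonneg (by linarith)
    refine ⟨by linarith, ⟨?_, ?_, ?_⟩, ⟨?_, ?_, ?_, ?_⟩, ⟨?_, ?_, ?_, ?_⟩⟩
    · rw [hk]; simp only; linarith
    · rw [hk]; simp only; linarith
    · rw [hk]; simp only; linarith
    · simp only [y1, y2]; omega
    · simp only [y3, y4]; omega
    · simp only [y1, y3]; omega
    · simp only [y2, y4]; omega
    · rw [hk]; simp only; linarith
    · rw [hk]; simp only; linarith
    · rw [hk]; simp only; linarith
    · rw [hk]; simp only; linarith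
  · intro x x' hx hx' h
    have e2 : x 2 = x' 2 := congrArg (fun z => z.1) h
    have e3 : x 3 = x' 3 := congrArg (fun z => z.2.1) h
    have e0 : x 0 = x' 0 := congrArg (fun z => z.2.2.1.1) h
    have e1 : x 1 = x' 1 := congrArg (fun z => z.2.2.1.2) h
    have f1 : y1 x = y1 x' := congrArg (fun z => z.2.2.2.1.1) h
    have f4 : y4 x = y4 x' := congrArg (fun z => z.2.2.2.1.2) h
    have f2 : y2 x = y2 x' := congrArg (fun z => z.2.2.2.2.1) h
    have f3 : y3 x = y3 x' := congrArg (fun z => z.2.2.2.2.2) h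
    simp only [y1, y2, y3, y4] at f1 f2 f3 f4
    have e4 : x 4 = x' 4 := by omega
    have e5 : x 5 = x' 5 := by omega
    have e6 : x 6 = x' 6 := by omega
    have e7 : x 7 = x' 7 := by omega
    funext i
    fin_cases i
    · exact e0
    · exact e1
    · exact e2
    · exact e3
    · exact e4
    · exact e5
    · exact e6
    · exact e7
  · rintro ⟨a, b, z⟩ hz
    rw [Finset.mem_coe, mem_tgt] at hz
    obtain ⟨hab, ⟨p1, p2, p3⟩, ⟨q1, q2, q3, q4⟩, ⟨t1, t2, t3, t4⟩⟩ := hz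
    have hk : ((((m : ℤ) - |a| - |b|).toNat : ℕ) : ℤ) = (m : ℤ) - |a| - |b| :=
      Int.toNat_of_nonneg (by linarith)
    rw [hk] at p1 p2 p3 t1 t2 t3 t4
    have g0 : pnt a b z 0 = z.1.1 := rfl
    have g1 : pnt a b z 1 = z.1.2 := rfl
    have g2 : pnt a b z 2 = a := rfl
    have g3 : pnt a b z 3 = b := rfl
    have g4 : pnt a b z 4 = z.2.1.1 - z.1.1 - z.1.2 := rfl
    have g5 : pnt a b z 5 = (z.2.2.1 - z.2.1.1 + z.1.1) / 2 := rfl
    have g6 : pnt a b z 6 = (z.2.2.2 - z.2.1.1 + z.1.2) / 2 := rfl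
    have g7 : pnt a b z 7 = (z.2.1.2 - z.2.1.1 + z.1.1 + z.1.2) / 2 := rfl
    have k1 : y1 (pnt a b z) = z.2.1.1 := by simp only [y1, g4, g0, g1]; ring
    have k2 : y2 (pnt a b z) = z.2.2.1 := by simp only [y2, g4, g5, g1]; omega
    have k3 : y3 (pnt a b z) = z.2.2.2 := by simp only [y3, g4, g6, g0]; omega
    have k4 : y4 (pnt a b z) = z.2.1.2 := by simp only [y4, g4, g7]; omega
    refine ⟨pnt a b z, ?_, ?_⟩
    · show InZ m (pnt a b z)
      unfold InZ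
      rw [k1, k2, k3, k4, g0, g1, g2, g3]
      refine ⟨by linarith, by linarith, by linarith, by linarith, by linarith, by linarith,
        by linarith⟩
    · unfold crd
      rw [k1, k2, k3, k4, g0, g1, g2, g3]

end Pool.Agent.H023R3.ST
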